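import Pool.Agent.TH378.CW.Base

set_option autoImplicit false

open MeasureTheory Metric Pool.Agent.TH378.CW
open scoped Real RealInnerProductSpace

namespace Pool.Agent.TH331.CW

/-- four vectors orthogonal to a nonzero vector have vanishing Gram determinant -/
theorem gram_zero (v : Fin 4 → H) (m : H) (hm : m ≠ 0) (h : ∀ i, ⟪v i, m⟫ = 0) :
    Matrix.det (Matrix.of fun i j => ⟪v i, v j⟫) = 0 := by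
  have hdep : ¬ LinearIndependent ℝ v := by
    intro hli
    have hmem : ∀ i, v i ∈ (ℝ ∙ m)ᗮ := by
      intro i
      rw [Submodule.mem_orthogonal_singleton_iff_inner_left]
      exact h i
    have hli2 : LinearIndependent ℝ (fun i => (⟨v i, hmem i⟩ : (ℝ ∙ m)ᗮ)) := by
      apply LinearIndependent.of_comp (Submodule.subtype _)
      exact hli
    have h1 := hli2.fintype_card_le_finrank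
    have h2 := Submodule.finrank_add_finrank_orthogonal (ℝ ∙ m)
    rw [finrank_span_singleton hm, Quaternion.finrank_eq_four] at h2
    simp at h1
    omega
  rw [Fintype.not_linearIndependent_iff] at hdep
  obtain ⟨t, ht, i, hi⟩ := hdep
  rw [← Matrix.exists_mulVec_eq_zero_iff]
  refine ⟨t, fun h0 => hi (congrFun h0 i), ?_⟩
  ext k
  simp only [Matrix.mulVec, dotProduct, Matrix.of_apply, Pi.zero_apply]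
  have : ∑ j, ⟪v k, v j⟫ * t j = ⟪v k, ∑ j, t j • v j⟫ := by
    rw [inner_sum]
    refine Finset.sum_congr rfl fun j _ => ?_
    rw [real_inner_smul_right, mul_comm]
  rw [this, ht, inner_zero_right]

/-- expansion of the Gram determinant -/
theorem gram_expand (v : Fin 4 → H) :
    Matrix.det (Matrix.of fun i j => ⟪v i, v j⟫) =
      ⟪v 3, v 3⟫ * (⟪v 0, v 0⟫ * ⟪v 1, v 1⟫ * ⟪v 2, v 2⟫ + 2 * ⟪v 0, v 1⟫ * ⟪v 0, v 2⟫ * ⟪v 1, v 2⟫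
        - ⟪v 0, v 0⟫ * ⟪v 1, v 2⟫ ^ 2 - ⟪v 1, v 1⟫ * ⟪v 0, v 2⟫ ^ 2 - ⟪v 2, v 2⟫ * ⟪v 0, v 1⟫ ^ 2)
      - (⟪v 0, v 3⟫ ^ 2 * (⟪v 1, v 1⟫ * ⟪v 2, v 2⟫ - ⟪v 1, v 2⟫ ^ 2)
        + ⟪v 1, v 3⟫ ^ 2 * (⟪v 0, v 0⟫ * ⟪v 2, v 2⟫ - ⟪v 0, v 2⟫ ^ 2)
        + ⟪v 2, v 3⟫ ^ 2 * (⟪v 0, v 0⟫ * ⟪v 1, v 1⟫ - ⟪v 0, v 1⟫ ^ 2)
        + 2 * ⟪v 0, v 3⟫ * ⟪v 1, v 3⟫ * (⟪v 0, v 2⟫ * ⟪v 1, v 2⟫ - ⟪v 0, v 1⟫ * ⟪v 2, v 2⟫)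
        + 2 * ⟪v 0, v 3⟫ * ⟪v 2, v 3⟫ * (⟪v 0, v 1⟫ * ⟪v 1, v 2⟫ - ⟪v 0, v 2⟫ * ⟪v 1, v 1⟫)
        + 2 * ⟪v 1, v 3⟫ * ⟪v 2, v 3⟫ * (⟪v 0, v 1⟫ * ⟪v 0, v 2⟫ - ⟪v 1, v 2⟫ * ⟪v 0, v 0⟫)) := by
  have e10 : ⟪v 1, v 0⟫ = ⟪v 0, v 1⟫ := real_inner_comm _ _
  have e20 : ⟪v 2, v 0⟫ = ⟪v 0, v 2⟫ := real_inner_comm _ _
  have e30 : ⟪v 3, v 0⟫ = ⟪v 0, v 3⟫ := real_inner_comm _ _
  have e21 : ⟪v 2, v 1⟫ = ⟪v 1, v 2⟫ := real_inner_comm _ _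
  have e31 : ⟪v 3, v 1⟫ = ⟪v 1, v 3⟫ := real_inner_comm _ _
  have e32 : ⟪v 3, v 2⟫ = ⟪v 2, v 3⟫ := real_inner_comm _ _
  have hM : (Matrix.of fun i j => ⟪v i, v j⟫) =
      !![⟪v 0, v 0⟫, ⟪v 0, v 1⟫, ⟪v 0, v 2⟫, ⟪v 0, v 3⟫;
         ⟪v 0, v 1⟫, ⟪v 1, v 1⟫, ⟪v 1, v 2⟫, ⟪v 1, v 3⟫;
         ⟪v 0, v 2⟫, ⟪v 1, v 2⟫, ⟪v 2, v 2⟫, ⟪v 2, v 3⟫;
         ⟪v 0, v 3⟫, ⟪v 1, v 3⟫, ⟪v 2, v 3⟫, ⟪v 3, v 3⟫] := by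
    ext i j
    fin_cases i <;> fin_cases j <;> simp [e10, e20, e30, e21, e31, e32]
  rw [hM]
  generalize ⟪v 0, v 0⟫ = x00
  generalize ⟪v 0, v 1⟫ = x01
  generalize ⟪v 0, v 2⟫ = x02
  generalize ⟪v 0, v 3⟫ = x03
  generalize ⟪v 1, v 1⟫ = x11
  generalize ⟪v 1, v 2⟫ = x12
  generalize ⟪v 1, v 3⟫ = x13
  generalize ⟪v 2, v 2⟫ = x22
  generalize ⟪v 2, v 3⟫ = x23
  generalize ⟪v 3, v 3⟫ = x33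
  simp [Matrix.det_succ_row_zero, Fin.sum_univ_succ, Matrix.det_fin_three, Fin.succAbove]
  ring

end Pool.Agent.TH331.CW
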