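import Pool.Agent.TH331.CW.G1

set_option autoImplicit false

open MeasureTheory Metric Pool.Agent.TH378.CW
open scoped Real RealInnerProductSpace

namespace Pool.Agent.TH331.CW

/-- the Heron expression -/
noncomputable def f0 (a : Fin 3 → H) : ℝ :=
  2 * (‖a 0 - a 1‖ ^ 2 * ‖a 0 - a 2‖ ^ 2 + ‖a 0 - a 1‖ ^ 2 * ‖a 1 - a 2‖ ^ 2 +
      ‖a 0 - a 2‖ ^ 2 * ‖a 1 - a 2‖ ^ 2) - (‖a 0 - a 1‖ ^ 2) ^ 2 - (‖a 0 - a 2‖ ^ 2) ^ 2 -
      (‖a 1 - a 2‖ ^ 2) ^ 2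

theorem nsub (u v : H) (hu : ‖u‖ = 1) (hv : ‖v‖ = 1) : ‖u - v‖ ^ 2 = 2 - 2 * ⟪u, v⟫ := by
  rw [norm_sub_sq_real, hu, hv]; ring

theorem inner_self_one (u : H) (hu : ‖u‖ = 1) : ⟪u, u⟫ = 1 := by
  rw [real_inner_self_eq_norm_sq, hu]; norm_num

theorem proj_norm (y m : H) (hm : ⟪m, m⟫ ≠ 0) :
    ⟪y - (⟪y, m⟫ / ⟪m, m⟫) • m, y - (⟪y, m⟫ / ⟪m, m⟫) • m⟫ = ⟪y, y⟫ - ⟪y, m⟫ ^ 2 / ⟪m, m⟫ := by
  have h1 : ⟪m, y⟫ = ⟪y, m⟫ := real_inner_comm _ _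
  rw [inner_sub_right, inner_sub_left, inner_sub_left, real_inner_smul_right,
    real_inner_smul_left, real_inner_smul_left, real_inner_smul_right, h1]
  field_simp
  ring

theorem det_formula (a : Fin 3 → H) (z n y : H) (P D : ℝ) (hP : 0 < P) (hz : ‖z‖ ^ 2 = P)
    (ha : ∀ i, ‖a i‖ = 1 ∧ ⟪a i, z⟫ = P) (hn : ‖n‖ = 1) (hnz : ⟪n, z⟫ = 0)
    (hD : ∀ i, ⟪a i, n⟫ = D) :
    Matrix.det (Matrix.of fun i j => ⟪(![a 0, a 1, a 2, y] : Fin 4 → H) i,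
      (![a 0, a 1, a 2, y] : Fin 4 → H) j⟫) =
      P * (f0 a / 4) * (⟪y, n⟫ - D / P * ⟪y, z⟫) ^ 2 := by
  set m : H := n - (D / P) • z with hm
  have hzz : ⟪z, z⟫ = P := by rw [real_inner_self_eq_norm_sq, hz]
  have hnn : ⟪n, n⟫ = 1 := inner_self_one n hn
  have hzn : ⟪z, n⟫ = 0 := by rw [real_inner_comm]; exact hnz
  have hPne : P ≠ 0 := hP.ne'
  have ham : ∀ i, ⟪a i, m⟫ = 0 := by
    intro i
    rw [hm, inner_sub_right, real_inner_smul_right, hD i, (ha i).2]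
    field_simp
    ring
  have hmm : ⟪m, m⟫ = 1 + D ^ 2 / P := by
    rw [hm, inner_sub_right, inner_sub_left, inner_sub_left, real_inner_smul_right,
      real_inner_smul_left, real_inner_smul_left, real_inner_smul_right, hnn, hzn, hnz, hzz]
    field_simp
    ring
  have hmpos : 0 < ⟪m, m⟫ := by rw [hmm]; positivity
  have hm0 : m ≠ 0 := by
    intro h
    rw [h, inner_zero_left] at hmpos
    exact lt_irrefl _ hmpos
  have g00 : ⟪a 0, a 0⟫ = 1 := inner_self_one _ (ha 0).1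
  have g11 : ⟪a 1, a 1⟫ = 1 := inner_self_one _ (ha 1).1
  have g22 : ⟪a 2, a 2⟫ = 1 := inner_self_one _ (ha 2).1
  have hf0 : f0 a = 2 * ((2 - 2 * ⟪a 0, a 1⟫) * (2 - 2 * ⟪a 0, a 2⟫)
      + (2 - 2 * ⟪a 0, a 1⟫) * (2 - 2 * ⟪a 1, a 2⟫) + (2 - 2 * ⟪a 0, a 2⟫) * (2 - 2 * ⟪a 1, a 2⟫))
      - (2 - 2 * ⟪a 0, a 1⟫) ^ 2 - (2 - 2 * ⟪a 0, a 2⟫) ^ 2 - (2 - 2 * ⟪a 1, a 2⟫) ^ 2 := by
    unfold f0
    rw [nsub _ _ (ha 0).1 (ha 1).1, nsub _ _ (ha 0).1 (ha 2).1, nsub _ _ (ha 1).1 (ha 2).1]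
  -- first vanishing determinant
  have k1 := gram_zero (![a 0, a 1, a 2, z + D • n]) m hm0 (by
    intro i
    fin_cases i
    · exact ham 0
    · exact ham 1
    · exact ham 2
    · show ⟪z + D • n, m⟫ = 0
      rw [hm, inner_add_left, inner_sub_right, inner_sub_right, real_inner_smul_right,
        real_inner_smul_left, real_inner_smul_left, real_inner_smul_right, hnn, hzn, hnz, hzz]
      field_simp
      ring)
  rw [gram_expand] at k1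
  -- second vanishing determinant
  have k2 := gram_zero (![a 0, a 1, a 2, y - (⟪y, m⟫ / ⟪m, m⟫) • m]) m hm0 (by
    intro i
    fin_cases i
    · exact ham 0
    · exact ham 1
    · exact ham 2
    · show ⟪y - (⟪y, m⟫ / ⟪m, m⟫) • m, m⟫ = 0
      rw [inner_sub_left, real_inner_smul_left]
      field_simp
      ring)
  rw [gram_expand] at k2
  rw [gram_expand]
  have hym : ⟪y, m⟫ = ⟪y, n⟫ - D / P * ⟪y, z⟫ := by
    rw [hm, inner_sub_right, real_inner_smul_right]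
  rw [← hym]
  have i1 : ∀ i, ⟪a i, z + D • n⟫ = P + D ^ 2 := by
    intro i
    rw [inner_add_right, real_inner_smul_right, (ha i).2, hD i]; ring
  have i2 : ⟪z + D • n, z + D • n⟫ = P + D ^ 2 := by
    rw [inner_add_right, inner_add_left, inner_add_left, real_inner_smul_right,
      real_inner_smul_left, real_inner_smul_left, real_inner_smul_right, hnn, hzn, hnz, hzz]
    ring
  have i3 : ∀ i, ⟪a i, y - (⟪y, m⟫ / ⟪m, m⟫) • m⟫ = ⟪a i, y⟫ := by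
    intro i
    rw [inner_sub_right, real_inner_smul_right, ham i]; ring
  have i4 : ⟪y - (⟪y, m⟫ / ⟪m, m⟫) • m, y - (⟪y, m⟫ / ⟪m, m⟫) • m⟫ =
      ⟪y, y⟫ - ⟪y, m⟫ ^ 2 / ⟪m, m⟫ := proj_norm y m hmpos.ne'
  simp only [Matrix.cons_val_zero, Matrix.cons_val_one, Matrix.cons_val] at k1 k2 ⊢
  rw [i1 0, i1 1, i1 2, i2, g00, g11, g22] at k1
  rw [i3 0, i3 1, i3 2, i4, g00, g11, g22] at k2
  rw [g00, g11, g22]
  rw [hf0]
  have hρ : P + D ^ 2 ≠ 0 := by positivity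
  have hmm' : ⟪m, m⟫ = (P + D ^ 2) / P := by rw [hmm]; field_simp
  rw [hmm'] at k2
  generalize ⟪a 0, a 1⟫ = x01 at *
  generalize ⟪a 0, a 2⟫ = x02 at *
  generalize ⟪a 1, a 2⟫ = x12 at *
  generalize ⟪a 0, y⟫ = c0 at *
  generalize ⟪a 1, y⟫ = c1 at *
  generalize ⟪a 2, y⟫ = c2 at *
  generalize ⟪y, m⟫ = l at *
  generalize ⟪y, y⟫ = Y at *
  have hG : 1 * 1 * 1 + 2 * x01 * x02 * x12 - 1 * x12 ^ 2 - 1 * x02 ^ 2 - 1 * x01 ^ 2 =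
      (P + D ^ 2) * ((2 * ((2 - 2 * x01) * (2 - 2 * x02) + (2 - 2 * x01) * (2 - 2 * x12) +
        (2 - 2 * x02) * (2 - 2 * x12)) - (2 - 2 * x01) ^ 2 - (2 - 2 * x02) ^ 2 -
        (2 - 2 * x12) ^ 2) / 4) := by
    apply mul_left_cancel₀ hρ
    linear_combination k1
  rw [hG] at k2 ⊢
  have e1 : l ^ 2 / ((P + D ^ 2) / P) = l ^ 2 * P / (P + D ^ 2) := by
    field_simp
  rw [e1] at k2
  have e2 : (P + D ^ 2) * (l ^ 2 * P / (P + D ^ 2)) = l ^ 2 * P := by field_simp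
  linear_combination k2 + ((2 * ((2 - 2 * x01) * (2 - 2 * x02) + (2 - 2 * x01) * (2 - 2 * x12) +
        (2 - 2 * x02) * (2 - 2 * x12)) - (2 - 2 * x01) ^ 2 - (2 - 2 * x02) ^ 2 -
        (2 - 2 * x12) ^ 2) / 4) * e2

end Pool.Agent.TH331.CW
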