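import Pool.Agent.TH331.CW.G2

set_option autoImplicit false

open MeasureTheory Metric Pool.Agent.TH378.CW
open scoped Real RealInnerProductSpace

namespace Pool.Agent.TH331.CW

/-- statement of the volume lower bound for simplicial cones -/
def SV : Prop := ∀ (v : Fin 4 → H) (_ : ∀ i, ‖v i‖ = 1) (C : Set H)
    (_ : ∀ t : Fin 4 → ℝ, (∀ i, 0 ≤ t i) → ∑ i, t i • v i ∈ C) (X : ℝ)
    (_ : X = 16 - ∑ i, ∑ j, ⟪v i, v j⟫),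
    ENNReal.ofReal (√(Matrix.det (Matrix.of fun i j => ⟪v i, v j⟫)) / 24 *
        (1 + X / 10 + 13 * X ^ 2 / 1680)) ≤ volume (C ∩ ball (0 : H) 1)

theorem cone_add {C : Set H} (hC : Cone60 C) {u v : H} (hu : u ∈ C) (hv : v ∈ C) : u + v ∈ C := by
  have h1 := hC.cvx hu hv (a := 1 / 2) (b := 1 / 2) (by norm_num) (by norm_num) (by norm_num)
  have h2 := hC.smul _ h1 2 (by norm_num)
  have : (2 : ℝ) • (((1 : ℝ) / 2) • u + ((1 : ℝ) / 2) • v) = u + v := by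
    rw [smul_add, smul_smul, smul_smul]; norm_num
  rwa [this] at h2

theorem cone_sum {C : Set H} (hC : Cone60 C) (v : Fin 4 → H) (hv : ∀ i, v i ∈ C)
    (t : Fin 4 → ℝ) (ht : ∀ i, 0 ≤ t i) : ∑ i, t i • v i ∈ C := by
  rw [Fin.sum_univ_four]
  exact cone_add hC (cone_add hC (cone_add hC (hC.smul _ (hv 0) _ (ht 0)) (hC.smul _ (hv 1) _ (ht 1)))
    (hC.smul _ (hv 2) _ (ht 2))) (hC.smul _ (hv 3) _ (ht 3))

/-- the lower bound for the sum of squared edges -/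
theorem X_le (a : Fin 3 → H) (y : H) (ha : ∀ i, ‖a i‖ = 1) (hy : ‖y‖ = 1) (δ : ℝ)
    (hδ : 3 - δ ≤ ‖a 0 - a 1‖ ^ 2 + ‖a 0 - a 2‖ ^ 2 + ‖a 1 - a 2‖ ^ 2) (hδ0 : 0 ≤ δ) :
    9 - δ - 2 * √(6 + δ) ≤ 16 - ∑ i, ∑ j, ⟪(![a 0, a 1, a 2, y] : Fin 4 → H) i,
      (![a 0, a 1, a 2, y] : Fin 4 → H) j⟫ := by
  have g00 : ⟪a 0, a 0⟫ = 1 := inner_self_one _ (ha 0)
  have g11 : ⟪a 1, a 1⟫ = 1 := inner_self_one _ (ha 1)
  have g22 : ⟪a 2, a 2⟫ = 1 := inner_self_one _ (ha 2)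
  have g33 : ⟪y, y⟫ = 1 := inner_self_one _ hy
  have e10 : ⟪a 1, a 0⟫ = ⟪a 0, a 1⟫ := real_inner_comm _ _
  have e20 : ⟪a 2, a 0⟫ = ⟪a 0, a 2⟫ := real_inner_comm _ _
  have e21 : ⟪a 2, a 1⟫ = ⟪a 1, a 2⟫ := real_inner_comm _ _
  have e30 : ⟪y, a 0⟫ = ⟪a 0, y⟫ := real_inner_comm _ _
  have e31 : ⟪y, a 1⟫ = ⟪a 1, y⟫ := real_inner_comm _ _
  have e32 : ⟪y, a 2⟫ = ⟪a 2, y⟫ := real_inner_comm _ _
  rw [nsub _ _ (ha 0) (ha 1), nsub _ _ (ha 0) (ha 2), nsub _ _ (ha 1) (ha 2)] at hδ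
  have hsum : ∑ i, ∑ j, ⟪(![a 0, a 1, a 2, y] : Fin 4 → H) i,
      (![a 0, a 1, a 2, y] : Fin 4 → H) j⟫ = 4 + 2 * (⟪a 0, a 1⟫ + ⟪a 0, a 2⟫ + ⟪a 1, a 2⟫) +
      2 * ⟪a 0 + a 1 + a 2, y⟫ := by
    simp only [Fin.sum_univ_four, Matrix.cons_val_zero, Matrix.cons_val_one, Matrix.cons_val]
    rw [inner_add_left, inner_add_left, g00, g11, g22, g33, e10, e20, e21, e30, e31, e32]
    ring
  have hA : ‖a 0 + a 1 + a 2‖ ^ 2 = 3 + 2 * (⟪a 0, a 1⟫ + ⟪a 0, a 2⟫ + ⟪a 1, a 2⟫) := by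
    rw [← real_inner_self_eq_norm_sq]
    simp only [inner_add_left, inner_add_right]
    rw [g00, g11, g22, e10, e20, e21]
    ring
  have hc : ⟪a 0 + a 1 + a 2, y⟫ ≤ ‖a 0 + a 1 + a 2‖ := by
    have := real_inner_le_norm (a 0 + a 1 + a 2) y
    rwa [hy, mul_one] at this
  rw [hsum]
  set σ := ⟪a 0, a 1⟫ + ⟪a 0, a 2⟫ + ⟪a 1, a 2⟫ with hσ
  set N := ‖a 0 + a 1 + a 2‖ with hN
  have hN0 : 0 ≤ N := norm_nonneg _
  have hσ' : 2 * σ ≤ 3 + δ := by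
    rw [hσ]; linarith
  have hN2 : N ≤ √(6 + δ) := by
    apply Real.le_sqrt_of_sq_le
    rw [hA]; linarith
  nlinarith [hc, hN2, hσ']

theorem X_nonneg (δ : ℝ) (hδ0 : 0 ≤ δ) (hδ3 : δ ≤ 3) : 0 ≤ 9 - δ - 2 * √(6 + δ) := by
  have : √(6 + δ) ≤ (9 - δ) / 2 := by
    rw [Real.sqrt_le_left (by linarith)]
    nlinarith
  linarith

/-- half of the estimate -/
theorem half_vol (hSV : SV) {C : Set H} (hC : Cone60 C) (z n y : H) (P D ε : ℝ) (hP : 0 < P)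
    (hz : ‖z‖ ^ 2 = P) (a : Fin 3 → H) (haC : ∀ i, a i ∈ C)
    (ha : ∀ i, ‖a i‖ = 1 ∧ ⟪a i, z⟫ = P) (hn : ‖n‖ = 1) (hnz : ⟪n, z⟫ = 0)
    (hD : ∀ i, ⟪a i, n⟫ = D) (hyC : y ∈ C) (hy : ‖y‖ = 1) (f δ : ℝ) (hf : 0 ≤ f)
    (hf' : f ≤ f0 a)
    (hδ : 3 - δ ≤ ‖a 0 - a 1‖ ^ 2 + ‖a 0 - a 2‖ ^ 2 + ‖a 1 - a 2‖ ^ 2) (hδ0 : 0 ≤ δ)
    (hδ3 : δ ≤ 3) (hε : ε = 1 ∨ ε = -1) (w : ℝ) (hw0 : 0 ≤ w)
    (hw : w ≤ ε * (⟪y, n⟫ - D / P * ⟪y, z⟫))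
    (X : ℝ) (hX : X = 9 - δ - 2 * √(6 + δ)) :
    ENNReal.ofReal (1 / 24 * √P * (√f / 2) * (1 + X / 10 + 13 * X ^ 2 / 1680) * w) ≤
      volume ((C ∩ {x : H | 0 ≤ ε * (⟪x, n⟫ - D / P * ⟪x, z⟫)}) ∩ ball (0 : H) 1) := by
  have hX0 : 0 ≤ X := by rw [hX]; exact X_nonneg δ hδ0 hδ3
  have hXle := X_le a y (fun i => (ha i).1) hy δ hδ hδ0
  rw [← hX] at hXle
  have hv : ∀ i, ‖(![a 0, a 1, a 2, y] : Fin 4 → H) i‖ = 1 := by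
    intro i
    fin_cases i
    · exact (ha 0).1
    · exact (ha 1).1
    · exact (ha 2).1
    · exact hy
  have hvC : ∀ i, (![a 0, a 1, a 2, y] : Fin 4 → H) i ∈ C := by
    intro i
    fin_cases i
    · exact haC 0
    · exact haC 1
    · exact haC 2
    · exact hyC
  have hLa : ∀ i, ⟪a i, n⟫ - D / P * ⟪a i, z⟫ = 0 := by
    intro i
    rw [hD i, (ha i).2]
    field_simp
    ring
  have key := hSV (![a 0, a 1, a 2, y]) hv (C ∩ {x : H | 0 ≤ ε * (⟪x, n⟫ - D / P * ⟪x, z⟫)})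
    (by
      intro t ht
      refine ⟨cone_sum hC _ hvC t ht, ?_⟩
      have e1 : ε * (⟪∑ i, t i • (![a 0, a 1, a 2, y] : Fin 4 → H) i, n⟫ - D / P *
          ⟪∑ i, t i • (![a 0, a 1, a 2, y] : Fin 4 → H) i, z⟫) =
          t 3 * (ε * (⟪y, n⟫ - D / P * ⟪y, z⟫)) := by
        simp only [Fin.sum_univ_four, Matrix.cons_val_zero, Matrix.cons_val_one, Matrix.cons_val,
          inner_add_left, real_inner_smul_left]
        linear_combination ε * t 0 * hLa 0 + ε * t 1 * hLa 1 + ε * t 2 * hLa 2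
      rw [Set.mem_setOf_eq, e1]
      exact mul_nonneg (ht 3) (hw0.trans hw)) _ rfl
  refine le_trans (ENNReal.ofReal_le_ofReal ?_) key
  rw [det_formula a z n y P D hP hz ha hn hnz hD]
  set X' := 16 - ∑ i, ∑ j, ⟪(![a 0, a 1, a 2, y] : Fin 4 → H) i,
      (![a 0, a 1, a 2, y] : Fin 4 → H) j⟫ with hX'
  have hf0 : 0 ≤ f0 a := hf.trans hf'
  have hL : √(P * (f0 a / 4) * (⟪y, n⟫ - D / P * ⟪y, z⟫) ^ 2) =
      √P * (√(f0 a) / 2) * |⟪y, n⟫ - D / P * ⟪y, z⟫| := by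
    rw [Real.sqrt_mul' _ (sq_nonneg _), Real.sqrt_mul hP.le, Real.sqrt_sq_eq_abs,
      Real.sqrt_div hf0]
    have : √(4 : ℝ) = 2 := by
      rw [show (4 : ℝ) = 2 ^ 2 by norm_num]; exact Real.sqrt_sq (by norm_num)
    rw [this]
  have habs : w ≤ |⟪y, n⟫ - D / P * ⟪y, z⟫| := by
    refine hw.trans ?_
    rcases hε with h | h
    · rw [h, one_mul]; exact le_abs_self _
    · rw [h, neg_one_mul]; exact neg_le_abs _
  rw [hL]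
  have hsf : √f ≤ √(f0 a) := Real.sqrt_le_sqrt hf'
  have q1 : √P * (√f / 2) * w ≤ √P * (√(f0 a) / 2) * |⟪y, n⟫ - D / P * ⟪y, z⟫| := by
    gcongr
  have q2 : 1 + X / 10 + 13 * X ^ 2 / 1680 ≤ 1 + X' / 10 + 13 * X' ^ 2 / 1680 := by
    gcongr
  have q3 : 0 ≤ √P * (√f / 2) * w := by positivity
  have q4 : 0 ≤ 1 + X / 10 + 13 * X ^ 2 / 1680 := by positivity
  have := mul_le_mul q1 q2 q4 (q3.trans q1)
  nlinarith [this]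

theorem hyper_null (L : H →ₗ[ℝ] ℝ) (hL : L ≠ 0) : volume {x : H | L x = 0} = 0 := by
  have h1 : {x : H | L x = 0} = (LinearMap.ker L : Set H) := by
    ext x; simp
  rw [h1]
  apply Measure.addHaar_submodule
  intro h
  exact hL (LinearMap.ker_eq_top.mp h)

theorem split_vol {C : Set H} (hC : IsClosed C) (L : H →ₗ[ℝ] ℝ) (hL : L ≠ 0) :
    volume ((C ∩ {x : H | 0 ≤ L x}) ∩ ball (0 : H) 1) +
      volume ((C ∩ {x : H | 0 ≤ -L x}) ∩ ball (0 : H) 1) ≤ volume (C ∩ ball (0 : H) 1) := by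
  have hcont : Continuous L := L.continuous_of_finiteDimensional
  set A := (C ∩ {x : H | 0 ≤ L x}) ∩ ball (0 : H) 1 with hA
  set B := (C ∩ {x : H | 0 ≤ -L x}) ∩ ball (0 : H) 1 with hB
  have hmA : MeasurableSet A := by
    refine (hC.measurableSet.inter ?_).inter measurableSet_ball
    exact (isClosed_le continuous_const hcont).measurableSet
  have hmB : MeasurableSet B := by
    refine (hC.measurableSet.inter ?_).inter measurableSet_ball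
    exact (isClosed_le continuous_const hcont.neg).measurableSet
  have hdis : AEDisjoint volume A B := by
    refine measure_mono_null ?_ (hyper_null L hL)
    rintro x ⟨⟨⟨-, h1⟩, -⟩, ⟨⟨-, h2⟩, -⟩⟩
    simp only [Set.mem_setOf_eq] at h1 h2 ⊢
    linarith
  rw [← measure_union₀ hmB.nullMeasurableSet hdis]
  apply measure_mono
  rintro x (⟨⟨h1, -⟩, h2⟩ | ⟨⟨h1, -⟩, h2⟩)
  · exact ⟨h1, h2⟩
  · exact ⟨h1, h2⟩

/-- Lower bound for the volume of a cone from a contact triangle and two apexes. -/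
theorem tri_vol_of (hSV : SV) {C : Set H} (hC : Cone60 C) (z n : H) (s D : ℝ)
    (hs : ‖z‖ ^ 2 = 1 - s)
    (hs1 : s < 1) (hz : ∀ u ∈ C, ‖u‖ = 1 → ‖z‖ ^ 2 ≤ ⟪u, z⟫) (a : Fin 3 → H)
    (ha : ∀ i, a i ∈ C ∧ ‖a i‖ = 1 ∧ ⟪a i, z⟫ = ‖z‖ ^ 2) (hn : ‖n‖ = 1) (hnz : ⟪n, z⟫ = 0)
    (hD : ∀ i, ⟪a i, n⟫ = D) (f δ : ℝ) (hf : 0 ≤ f)
    (hf' : f ≤ 2 * (‖a 0 - a 1‖ ^ 2 * ‖a 0 - a 2‖ ^ 2 + ‖a 0 - a 1‖ ^ 2 * ‖a 1 - a 2‖ ^ 2 +
      ‖a 0 - a 2‖ ^ 2 * ‖a 1 - a 2‖ ^ 2) - (‖a 0 - a 1‖ ^ 2) ^ 2 - (‖a 0 - a 2‖ ^ 2) ^ 2 -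
      (‖a 1 - a 2‖ ^ 2) ^ 2)
    (hδ : 3 - δ ≤ ‖a 0 - a 1‖ ^ 2 + ‖a 0 - a 2‖ ^ 2 + ‖a 1 - a 2‖ ^ 2) (hδ0 : 0 ≤ δ)
    (hδ3 : δ ≤ 3) (tp tm : ℝ) (yp ym : H) (hyp : yp ∈ C) (hyp1 : ‖yp‖ = 1) (hym : ym ∈ C)
    (hym1 : ‖ym‖ = 1) (htp : ‖z‖ * ⟪yp, n⟫ = tp * ⟪yp, z⟫)
    (htm : ‖z‖ * ⟪ym, n⟫ = -tm * ⟪ym, z⟫)
    (hT : ∀ u ∈ C, -tm * ⟪u, z⟫ ≤ ‖z‖ * ⟪u, n⟫ ∧ ‖z‖ * ⟪u, n⟫ ≤ tp * ⟪u, z⟫)
    (X : ℝ) (hX : X = 9 - δ - 2 * √(6 + δ)) :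
    ENNReal.ofReal (1 / 6 * (1 - s) * (√f / 2) * (1 + X / 10 + 13 * X ^ 2 / 1680) * (tp + tm)) ≤
      4 * volume (C ∩ ball (0 : H) 1) := by
  set P : ℝ := 1 - s with hPdef
  have hP : 0 < P := by rw [hPdef]; linarith
  have hPne : P ≠ 0 := hP.ne'
  have hX0 : 0 ≤ X := by rw [hX]; exact X_nonneg δ hδ0 hδ3
  set r : ℝ := ‖z‖ with hr
  have hr0 : 0 ≤ r := norm_nonneg z
  have hrpos : 0 < r := by
    rcases hr0.lt_or_eq with h | h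
    · exact h
    · exfalso; rw [← h] at hs; norm_num at hs; linarith
  have hrP : √P = r := by rw [← hs]; exact Real.sqrt_sq hr0
  have ha' : ∀ i, ‖a i‖ = 1 ∧ ⟪a i, z⟫ = P := fun i => ⟨(ha i).2.1, by rw [(ha i).2.2, hs]⟩
  have hzz : ‖z‖ ^ 2 = P := hs
  -- the bounds for D
  have hD1 : D ≤ r * tp := by
    have h1 := (hT (a 0) (ha 0).1).2
    rw [hD 0, (ha' 0).2, ← hs] at h1
    by_contra hcon
    push Not at hcon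
    nlinarith [mul_lt_mul_of_pos_left hcon hrpos]
  have hD2 : -(r * tm) ≤ D := by
    have h1 := (hT (a 0) (ha 0).1).1
    rw [hD 0, (ha' 0).2, ← hs] at h1
    by_contra hcon
    push Not at hcon
    nlinarith [mul_lt_mul_of_pos_left hcon hrpos]
  have hypz : P ≤ ⟪yp, z⟫ := by rw [← hs]; exact hz yp hyp hyp1
  have hymz : P ≤ ⟪ym, z⟫ := by rw [← hs]; exact hz ym hym hym1
  -- the linear form
  have hLp : r * tp - D ≤ 1 * (⟪yp, n⟫ - D / P * ⟪yp, z⟫) := by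
    have e1 : ⟪yp, n⟫ = tp * ⟪yp, z⟫ / r := by rw [← htp]; field_simp
    have e2 : 1 * (⟪yp, n⟫ - D / P * ⟪yp, z⟫) = ⟪yp, z⟫ / P * (r * tp - D) := by
      rw [e1, ← hs]; field_simp
    rw [e2]
    have e3 : 1 ≤ ⟪yp, z⟫ / P := by rw [le_div_iff₀ hP]; linarith
    nlinarith [mul_nonneg (sub_nonneg.mpr e3) (sub_nonneg.mpr hD1)]
  have hLm : r * tm + D ≤ -1 * (⟪ym, n⟫ - D / P * ⟪ym, z⟫) := by
    have e1 : ⟪ym, n⟫ = -tm * ⟪ym, z⟫ / r := by rw [← htm]; field_simp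
    have e2 : -1 * (⟪ym, n⟫ - D / P * ⟪ym, z⟫) = ⟪ym, z⟫ / P * (r * tm + D) := by
      rw [e1, ← hs]; field_simp; ring
    rw [e2]
    have e3 : 1 ≤ ⟪ym, z⟫ / P := by rw [le_div_iff₀ hP]; linarith
    nlinarith [mul_nonneg (sub_nonneg.mpr e3) (show 0 ≤ r * tm + D by linarith)]
  have H1 := half_vol hSV hC z n yp P D 1 hP hzz a (fun i => (ha i).1) ha' hn hnz hD hyp hyp1 f δ hf
    hf' hδ hδ0 hδ3 (Or.inl rfl) (r * tp - D) (by linarith) hLp X hX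
  have H2 := half_vol hSV hC z n ym P D (-1) hP hzz a (fun i => (ha i).1) ha' hn hnz hD hym hym1 f δ
    hf hf' hδ hδ0 hδ3 (Or.inr rfl) (r * tm + D) (by linarith) hLm X hX
  let L : H →ₗ[ℝ] ℝ := (innerₗ H n) - (D / P) • (innerₗ H z)
  have hLx : ∀ x, L x = ⟪x, n⟫ - D / P * ⟪x, z⟫ := by
    intro x
    simp only [L, LinearMap.sub_apply, LinearMap.smul_apply, innerₗ_apply_apply, smul_eq_mul]
    rw [real_inner_comm, real_inner_comm z x]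
  have hL0 : L ≠ 0 := by
    intro h0
    have h1 : L n = 0 := by rw [h0]; rfl
    rw [hLx, inner_self_one n hn, hnz] at h1
    norm_num at h1
  have hs3 := split_vol hC.closed L hL0
  have hsetp : {x : H | 0 ≤ 1 * (⟪x, n⟫ - D / P * ⟪x, z⟫)} = {x : H | 0 ≤ L x} := by
    ext x; simp only [Set.mem_setOf_eq, hLx, one_mul]
  have hsetm : {x : H | 0 ≤ -1 * (⟪x, n⟫ - D / P * ⟪x, z⟫)} = {x : H | 0 ≤ -L x} := by
    ext x; simp only [Set.mem_setOf_eq, hLx, neg_one_mul]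
  rw [hsetp] at H1
  rw [hsetm] at H2
  have H3 := (add_le_add H1 H2).trans hs3
  have hcoef : 0 ≤ 1 / 24 * √P * (√f / 2) * (1 + X / 10 + 13 * X ^ 2 / 1680) := by positivity
  rw [← ENNReal.ofReal_add (mul_nonneg hcoef (by linarith)) (mul_nonneg hcoef (by linarith))] at H3
  have e4 : ENNReal.ofReal (1 / 6 * P * (√f / 2) * (1 + X / 10 + 13 * X ^ 2 / 1680) * (tp + tm)) =
      4 * ENNReal.ofReal (1 / 24 * √P * (√f / 2) * (1 + X / 10 + 13 * X ^ 2 / 1680) * (r * tp - D) +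
        1 / 24 * √P * (√f / 2) * (1 + X / 10 + 13 * X ^ 2 / 1680) * (r * tm + D)) := by
    rw [show (4 : ENNReal) = ENNReal.ofReal 4 by norm_num,
      ← ENNReal.ofReal_mul (by norm_num : (0 : ℝ) ≤ 4)]
    congr 1
    rw [hrP, ← hs]
    ring
  rw [e4]
  gcongr

end Pool.Agent.TH331.CW
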