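import Pool.Agent.TH331.CW.G3
import Pool.Agent.TH158.CW.SimplexVol

set_option autoImplicit false

open MeasureTheory Metric Pool.Agent.TH378.CW
open scoped Real RealInnerProductSpace

namespace Pool.Agent.TH331.CW

theorem tri_vol {C : Set H} (hC : Cone60 C) (z n : H) (s D : ℝ) (hs : ‖z‖ ^ 2 = 1 - s)
    (hs1 : s < 1) (hz : ∀ u ∈ C, ‖u‖ = 1 → ‖z‖ ^ 2 ≤ ⟪u, z⟫) (a : Fin 3 → H)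
    (ha : ∀ i, a i ∈ C ∧ ‖a i‖ = 1 ∧ ⟪a i, z⟫ = ‖z‖ ^ 2) (hn : ‖n‖ = 1) (hnz : ⟪n, z⟫ = 0)
    (hD : ∀ i, ⟪a i, n⟫ = D) (f δ : ℝ) (hf : 0 ≤ f)
    (hf' : f ≤ 2 * (‖a 0 - a 1‖ ^ 2 * ‖a 0 - a 2‖ ^ 2 + ‖a 0 - a 1‖ ^ 2 * ‖a 1 - a 2‖ ^ 2 +
      ‖a 0 - a 2‖ ^ 2 * ‖a 1 - a 2‖ ^ 2) - (‖a 0 - a 1‖ ^ 2) ^ 2 - (‖a 0 - a 2‖ ^ 2) ^ 2 -
      (‖a 1 - a 2‖ ^ 2) ^ 2)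
    (hδ : 3 - δ ≤ ‖a 0 - a 1‖ ^ 2 + ‖a 0 - a 2‖ ^ 2 + ‖a 1 - a 2‖ ^ 2) (hδ0 : 0 ≤ δ)
    (hδ3 : δ ≤ 3) (tp tm : ℝ) (yp ym : H) (hyp : yp ∈ C) (hyp1 : ‖yp‖ = 1) (hym : ym ∈ C)
    (hym1 : ‖ym‖ = 1) (htp : ‖z‖ * ⟪yp, n⟫ = tp * ⟪yp, z⟫)
    (htm : ‖z‖ * ⟪ym, n⟫ = -tm * ⟪ym, z⟫)
    (hT : ∀ u ∈ C, -tm * ⟪u, z⟫ ≤ ‖z‖ * ⟪u, n⟫ ∧ ‖z‖ * ⟪u, n⟫ ≤ tp * ⟪u, z⟫)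
    (X : ℝ) (hX : X = 9 - δ - 2 * √(6 + δ)) :
    ENNReal.ofReal (1 / 6 * (1 - s) * (√f / 2) * (1 + X / 10 + 13 * X ^ 2 / 1680) * (tp + tm)) ≤
      4 * volume (C ∩ ball (0 : H) 1) :=
  tri_vol_of (fun v hv C hC X hX => Pool.Agent.TH158.CW.simplex_vol v hv C hC X hX) hC z n s D hs
    hs1 hz a ha hn hnz hD f δ hf hf' hδ hδ0 hδ3 tp tm yp ym hyp hyp1 hym hym1 htp htm hT X hX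

end Pool.Agent.TH331.CW
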